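import Mathlib
import Pool.Agent.W680.WH.Stm2

/-! Project WHH (helper680), part CO1: strong continuity at the identity. -/

set_option autoImplicit false

open scoped ComplexConjugate InnerProductSpace
open ContinuousLinearMap Filter

namespace Pool.Agent.W287.WH

open Pool.Agent.W680.WH

lemma norm_of_isom {V : E →L[ℂ] E} (h : adjoint V * V = 1) (f : E) : ‖V f‖ = ‖f‖ := by
  have h1 : ⟪V f, V f⟫_ℂ = ⟪f, f⟫_ℂ := by
    rw [← ContinuousLinearMap.adjoint_inner_left, ← ContinuousLinearMap.mul_apply, h,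
      ContinuousLinearMap.one_apply]
  rw [inner_self_eq_norm_sq_to_K, inner_self_eq_norm_sq_to_K] at h1
  have h2 : ‖V f‖ ^ 2 = ‖f‖ ^ 2 := by exact_mod_cast h1
  exact (pow_left_inj₀ (norm_nonneg _) (norm_nonneg _) two_ne_zero).1 h2

lemma norm_R (hOPR : S_OPR) (k : Circle) (f : E) : ‖R k f‖ = ‖f‖ := by
  obtain ⟨_, _, _, hmul, hone, hadj, _⟩ := hOPR
  apply norm_of_isom
  rw [hadj, hmul, inv_mul_cancel, hone]

lemma R_cont (hOPR : S_OPR) (hOPC : S_OPC) (f : E) (ε : ℝ) (hε : 0 < ε) :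
    ∀ᶠ k in nhds (1 : Circle), ‖R k f - f‖ < ε := by
  have hiso := norm_R hOPR
  obtain ⟨heb, _, _, hmul, hone, hadj, _⟩ := hOPR
  obtain ⟨_, _, _, _, _, _, _, _, _, _, _, _, _, _, _, hsum, _, _⟩ := hOPC
  have h1 := hsum f
  have h2 : ∀ᶠ s : Finset ℤ in atTop, ∑ n ∈ s, co f n • eb n ∈ Metric.ball f (ε / 3) :=
    h1 (Metric.ball_mem_nhds f (by positivity))
  obtain ⟨s, hs⟩ := h2.exists
  rw [Metric.mem_ball, dist_eq_norm] at hs
  set g : E := ∑ n ∈ s, co f n • eb n with hg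
  have hRg : ∀ k : Circle, R k g = ∑ n ∈ s, co f n • (((k ^ n : Circle) : ℂ) • eb n) := by
    intro k
    rw [hg, map_sum]
    apply Finset.sum_congr rfl
    intro n _
    rw [map_smul, heb]
  have hcont : Continuous (fun k : Circle => ∑ n ∈ s, co f n • (((k ^ n : Circle) : ℂ) • eb n)) := by
    apply continuous_finsetSum
    intro n _
    have h0 : Continuous (fun k : Circle => ((k ^ n : Circle) : ℂ)) :=
      continuous_subtype_val.comp (continuous_zpow n)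
    exact (h0.smul continuous_const).const_smul (co f n)
  have h3 : Tendsto (fun k : Circle => ‖R k g - g‖) (nhds 1) (nhds 0) := by
    have h4 : Continuous (fun k : Circle => ‖R k g - g‖) := by
      simp only [hRg]
      exact (hcont.sub continuous_const).norm
    have h5 := h4.tendsto 1
    rw [hone] at h5
    simpa using h5
  filter_upwards [h3.eventually (gt_mem_nhds (show (0 : ℝ) < ε / 3 by positivity))] with k hk
  have h6 : R k f - f = R k (f - g) + (R k g - g) + (g - f) := by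
    rw [map_sub]
    abel
  rw [h6]
  have h7 : ‖R k (f - g)‖ = ‖g - f‖ := by rw [hiso, norm_sub_rev]
  calc ‖R k (f - g) + (R k g - g) + (g - f)‖
      ≤ ‖R k (f - g)‖ + ‖R k g - g‖ + ‖g - f‖ := norm_add₃_le
    _ < ε := by rw [h7]; linarith

lemma norm_E2_le (z : E2) : ‖z‖ ≤ ‖z.fst‖ + ‖z.snd‖ := by
  rw [WithLp.prod_norm_eq_of_L2]
  rw [Real.sqrt_le_left (by positivity)]
  nlinarith [norm_nonneg z.fst, norm_nonneg z.snd, mul_nonneg (norm_nonneg z.fst) (norm_nonneg z.snd)]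

lemma pos_R (hOPR : S_OPR) (hOPC : S_OPC) (k : Circle) : Pos (R k) := by
  obtain ⟨heb, _⟩ := hOPR
  obtain ⟨hco, _, _, _, _, _, _, _, _, hin, _⟩ := hOPC
  unfold Pos
  rw [heb, zpow_zero, Circle.coe_one, one_smul, hin, hco, om_zero]
  simp

/-- the parameters of a decomposition -/
lemma params (φ α β ρ σ : Mob) (k l : Circle) (r : ℝ) (hr0 : 0 ≤ r) (hr1 : r < 1)
    (hαc : α.c = k) (hαa : α.a = 0) (hβc : β.c = l) (hβa : β.a = 0) (hρc : ρ.c = 1)
    (hρa : ρ.a = r) (hσ : ∀ z : ℂ, ‖z‖ < 1 → α.act (ρ.act z) = σ.act z)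
    (hφ : ∀ z : ℂ, ‖z‖ < 1 → σ.act (β.act z) = φ.act z) :
    ‖φ.a‖ = r ∧ φ.c = k * l := by
  have hα : ∀ z, α.act z = k * z := by
    intro z
    unfold Mob.act
    rw [hαc, hαa]
    simp
  have hβ : ∀ z, β.act z = l * z := by
    intro z
    unfold Mob.act
    rw [hβc, hβa]
    simp
  have hρ : ∀ z, ρ.act z = (z - r) / (1 - r * z) := by
    intro z
    unfold Mob.act
    rw [hρc, hρa, Complex.conj_ofReal, one_mul]
  have hln : ‖(l : ℂ)‖ = 1 := Circle.norm_coe l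
  have hl0 : (l : ℂ) ≠ 0 := by
    intro h
    rw [h, norm_zero] at hln
    exact zero_ne_one hln
  have hk0 : (k : ℂ) ≠ 0 := by
    intro h
    have hkn : ‖(k : ℂ)‖ = 1 := Circle.norm_coe k
    rw [h, norm_zero] at hkn
    exact zero_ne_one hkn
  have key : ∀ z : ℂ, ‖z‖ < 1 → φ.act z = k * ((l * z - r) / (1 - r * (l * z))) := by
    intro z hz
    rw [← hφ z hz, hβ, ← hσ (l * z) (by rw [norm_mul, hln, one_mul]; exact hz), hρ, hα]
  have hc0 : φ.c ≠ 0 := by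
    intro h
    have := φ.hc
    rw [h, norm_zero] at this
    exact zero_ne_one this
  have hden : ∀ z : ℂ, ‖z‖ < 1 → 1 - conj φ.a * z ≠ 0 := by
    intro z hz h
    have h1 : conj φ.a * z = 1 := (sub_eq_zero.1 h).symm
    have h2 : ‖conj φ.a * z‖ < 1 := by
      rw [norm_mul, RCLike.norm_conj]
      calc ‖φ.a‖ * ‖z‖ ≤ ‖φ.a‖ * 1 := mul_le_mul_of_nonneg_left hz.le (norm_nonneg _)
        _ < 1 := by rw [mul_one]; exact φ.ha
    rw [h1, norm_one] at h2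
    exact lt_irrefl _ h2
  have ha : φ.a = r / l := by
    have hz : ‖(r : ℂ) / l‖ < 1 := by
      rw [norm_div, hln, div_one, Complex.norm_real, Real.norm_of_nonneg hr0]
      exact hr1
    have h1 := key _ hz
    rw [mul_div_cancel₀ _ hl0, sub_self, zero_div, mul_zero] at h1
    unfold Mob.act at h1
    rcases mul_eq_zero.1 h1 with h2 | h2
    · exact absurd h2 hc0
    · rcases div_eq_zero_iff.1 h2 with h3 | h3
      · exact (sub_eq_zero.1 h3).symm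
      · exact absurd h3 (hden _ hz)
  have hna : ‖φ.a‖ = r := by
    rw [ha, norm_div, hln, div_one, Complex.norm_real, Real.norm_of_nonneg hr0]
  refine ⟨hna, ?_⟩
  set z : ℂ := (((1 + r) / 2 : ℝ) : ℂ) with hz
  have hzn : ‖z‖ = (1 + r) / 2 := by
    rw [hz, Complex.norm_real, Real.norm_of_nonneg (by linarith)]
  have hz1 : ‖z‖ < 1 := by rw [hzn]; linarith
  have hza : z - φ.a ≠ 0 := by
    intro h
    have h1 : z = φ.a := sub_eq_zero.1 h
    rw [h1, hna] at hzn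
    linarith
  have h1 := key z hz1
  have h2 : (l * z - r) / (1 - r * (l * z)) = l * ((z - φ.a) / (1 - conj φ.a * z)) := by
    have h3 : conj φ.a = r * l := by
      rw [ha, map_div₀, Complex.conj_ofReal]
      have h4 : conj (l : ℂ) = (l : ℂ)⁻¹ := by
        rw [← Circle.coe_inv_eq_conj, Circle.coe_inv]
      rw [h4, div_inv_eq_mul]
    have h5 : (l : ℂ) * z - r = l * (z - φ.a) := by
      rw [ha, mul_sub, mul_div_cancel₀ _ hl0]
    rw [h3, h5, mul_div_assoc, mul_assoc]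
  rw [h2] at h1
  unfold Mob.act at h1
  have h6 : (z - φ.a) / (1 - conj φ.a * z) ≠ 0 := div_ne_zero hza (hden z hz1)
  rw [← mul_assoc] at h1
  exact mul_right_cancel₀ h6 h1

theorem co1 (hLS2 : S_LS2) (hLEX : S_LEX) (hLUN : S_LUN) (hMOBG : S_MOBG) (hOPR : S_OPR)
    (hOPC : S_OPC) : S_CO1 := by
  intro Γ C hmul _ hform x ε hε
  have hR := R_cont hOPR hOPC
  have hisoR := norm_R hOPR
  have hposR := pos_R hOPR hOPC
  -- the rotations
  have hrot : ∀ (k : Circle) (α : Mob), α.c = k → α.a = 0 →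
      (Γ α : E2 →L[ℂ] E2) = blk (R k⁻¹) 0 (R k⁻¹) := by
    intro k α h1 h2
    obtain ⟨V, d, h3, h4, h5⟩ := hform α
    have h6 := hLEX.1 k α h1 h2
    obtain ⟨h7, _, h8⟩ := hLUN α V d (R k⁻¹) 0 h3 h6
    rw [h5, h8 h4 (hposR k⁻¹), h7, mul_zero]
  set ε1 : ℝ := ε / (4 + ‖x.snd‖) with hε1
  have hpos : 0 < 4 + ‖x.snd‖ := by positivity
  have hε1p : 0 < ε1 := by positivity
  obtain ⟨δ1, hδ1, _, hd1⟩ := hLS2 x.fst ε1 hε1p
  obtain ⟨δ2, hδ2, _, hd2⟩ := hLS2 x.snd ε1 hε1p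
  have hinv : Tendsto (fun k : Circle => k⁻¹) (nhds 1) (nhds 1) := by
    have h := (continuous_inv (G := Circle)).tendsto 1
    rwa [inv_one] at h
  have hev := (hinv.eventually (hR x.fst ε1 hε1p)).and (hinv.eventually (hR x.snd ε1 hε1p))
  obtain ⟨η, hη, hη'⟩ := Metric.eventually_nhds_iff.1 hev
  refine ⟨min (min δ1 δ2) η, by positivity, ?_⟩
  intro φ hφc hφa
  obtain ⟨k, l, r, α, β, ρ, σ, hr0, hr1, hαc, hαa, hβc, hβa, hρc, hρa, hσ, hφ⟩ := hMOBG.2.2.2.2 φ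
  obtain ⟨hpa, hpc⟩ := params φ α β ρ σ k l r hr0 hr1 hαc hαa hβc hβa hρc hρa hσ hφ
  have hΓ : (Γ φ : E2 →L[ℂ] E2) = blk (R k⁻¹) 0 (R k⁻¹) * (Γ ρ : E2 →L[ℂ] E2) *
      blk (R l⁻¹) 0 (R l⁻¹) := by
    rw [hmul σ β φ hφ, hmul α ρ σ hσ, Units.val_mul, Units.val_mul, hrot k α hαc hαa,
      hrot l β hβc hβa]
  obtain ⟨V, d, hL, hP, hρΓ⟩ := hform ρ
  rw [hpa] at hφa
  have hrδ1 : r < δ1 := lt_of_lt_of_le hφa ((min_le_left _ _).trans (min_le_left _ _))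
  have hrδ2 : r < δ2 := lt_of_lt_of_le hφa ((min_le_left _ _).trans (min_le_right _ _))
  obtain ⟨hdn, hV1⟩ := hd1 r ρ V d hr0 hrδ1 hρc hρa hL hP
  obtain ⟨_, hV2⟩ := hd2 r ρ V d hr0 hrδ2 hρc hρa hL hP
  have hVn : ∀ f, ‖V f‖ = ‖f‖ := norm_of_isom hL.1
  have hkl : dist (k * l) 1 < η := by
    have h1 : dist (k * l) 1 = ‖((k * l : Circle) : ℂ) - ((1 : Circle) : ℂ)‖ := by
      rw [← dist_eq_norm]
      rfl
    rw [h1, Circle.coe_mul, Circle.coe_one, ← hpc]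
    exact lt_of_lt_of_le hφc (min_le_right _ _)
  obtain ⟨hr1', hr2'⟩ := hη' hkl
  set y1 : E := R l⁻¹ x.fst with hy1
  set y2 : E := R l⁻¹ x.snd with hy2
  have hRR : ∀ f : E, R k⁻¹ (R l⁻¹ f) = R (k * l)⁻¹ f := by
    intro f
    rw [← ContinuousLinearMap.mul_apply, hOPR.2.2.2.1, mul_inv]
  have e1 : ((Γ φ : E2 →L[ℂ] E2) x - x).fst =
      R k⁻¹ ((V y1 - y1) + V (d y2)) + (R (k * l)⁻¹ x.fst - x.fst) := by
    rw [hΓ, hρΓ]
    have h1 : ((blk (R k⁻¹) 0 (R k⁻¹) * blk V (V * d) V * blk (R l⁻¹) 0 (R l⁻¹)) x - x).fst =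
        (R k⁻¹ (V (R l⁻¹ x.fst + (0 : E →L[ℂ] E) x.snd) + (V * d) (R l⁻¹ x.snd)) +
          (0 : E →L[ℂ] E) (V (R l⁻¹ x.snd))) - x.fst := rfl
    rw [h1, ContinuousLinearMap.zero_apply, ContinuousLinearMap.zero_apply, add_zero, add_zero,
      ContinuousLinearMap.mul_apply, ← hRR, ← hy1, ← hy2]
    simp only [map_add, map_sub]
    abel
  have e2 : ((Γ φ : E2 →L[ℂ] E2) x - x).snd =
      R k⁻¹ (V y2 - y2) + (R (k * l)⁻¹ x.snd - x.snd) := by
    rw [hΓ, hρΓ]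
    have h1 : ((blk (R k⁻¹) 0 (R k⁻¹) * blk V (V * d) V * blk (R l⁻¹) 0 (R l⁻¹)) x - x).snd =
        R k⁻¹ (V (R l⁻¹ x.snd)) - x.snd := rfl
    rw [h1, ← hRR, ← hy2]
    simp only [map_sub]
    abel
  have b1 : ‖V y1 - y1‖ ≤ ε1 := hV1 l⁻¹
  have b2 : ‖V y2 - y2‖ ≤ ε1 := hV2 l⁻¹
  have b3 : ‖V (d y2)‖ ≤ ε1 * ‖x.snd‖ := by
    rw [hVn]
    refine (d.le_opNorm y2).trans ?_
    rw [hy2, hisoR]
    exact mul_le_mul_of_nonneg_right hdn (norm_nonneg _)
  have n1 : ‖((Γ φ : E2 →L[ℂ] E2) x - x).fst‖ ≤ ε1 + ε1 * ‖x.snd‖ + ε1 := by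
    rw [e1]
    refine (norm_add_le _ _).trans ?_
    rw [hisoR]
    have := norm_add_le (V y1 - y1) (V (d y2))
    linarith
  have n2 : ‖((Γ φ : E2 →L[ℂ] E2) x - x).snd‖ ≤ ε1 + ε1 := by
    rw [e2]
    refine (norm_add_le _ _).trans ?_
    rw [hisoR]
    linarith
  refine (norm_E2_le _).trans ?_
  have h9 : ε1 * (4 + ‖x.snd‖) = ε := by
    rw [hε1]
    field_simp
  linarith

end Pool.Agent.W287.WH
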